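import Mathlib

/-! Mean-split quantization can be slower than `2^{-n}` under a finite second moment (MP_a33f4b). -/

set_option autoImplicit false
open MeasureTheory Filter Topology Set
open scoped ENNReal

namespace Pool.Agent.Results.MP_a33f4b_pr.SlowRate

/-- The mean of a measure on the line. -/
noncomputable def mean (μ : Measure ℝ) : ℝ := ∫ x, x ∂μ

/-- `μ` conditioned on `s`. -/
noncomputable def condOn (μ : Measure ℝ) (s : Set ℝ) : Measure ℝ := (μ s)⁻¹ • μ.restrict s

/-- The mean-split algorithm. -/
noncomputable def T : ℕ → Measure ℝ → Measure ℝ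
  | 0, μ => Measure.dirac (mean μ)
  | n + 1, μ => μ (Iio (mean μ)) • T n (condOn μ (Iio (mean μ)))
      + μ (Ici (mean μ)) • T n (condOn μ (Ici (mean μ)))

/-- The Wasserstein-1 distance on the line, through distribution functions. -/
noncomputable def W1 (μ ν : Measure ℝ) : ℝ≥0∞ :=
  ∫⁻ t, ENNReal.ofReal |(μ (Iic t)).toReal - (ν (Iic t)).toReal|

/-- Good measures: probabilities with finite mean. -/
def Good (μ : Measure ℝ) : Prop := IsProbabilityMeasure μ ∧ Integrable (fun x : ℝ => x) μ

theorem good_cond {μ : Measure ℝ} (h : Good μ) {s : Set ℝ} (hs : μ s ≠ 0) :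
    Good (condOn μ s) := by
  obtain ⟨h1, h2⟩ := h
  constructor
  · constructor
    unfold condOn
    rw [Measure.smul_apply, Measure.restrict_apply MeasurableSet.univ, univ_inter, smul_eq_mul]
    exact ENNReal.inv_mul_cancel hs (measure_ne_top _ _)
  · unfold condOn
    exact (h2.mono_measure Measure.restrict_le_self).smul_measure (ENNReal.inv_ne_top.2 hs)

theorem split {μ : Measure ℝ} (h : Good μ) (m : ℝ) {A : Set ℝ} (hA : MeasurableSet A) :
    μ A = μ (Iio m) * condOn μ (Iio m) A + μ (Ici m) * condOn μ (Ici m) A := by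
  have := h.1
  have h1 : ∀ s : Set ℝ, μ s * condOn μ s A = μ (A ∩ s) := by
    intro s
    unfold condOn
    rw [Measure.smul_apply, smul_eq_mul, Measure.restrict_apply hA]
    by_cases hs : μ s = 0
    · rw [hs, zero_mul]
      exact (measure_mono_null inter_subset_right hs).symm
    · rw [← mul_assoc, ENNReal.mul_inv_cancel hs (measure_ne_top _ _), one_mul]
  rw [h1, h1, ← measure_union _ (hA.inter measurableSet_Ici)]
  · congr 1
    rw [← inter_union_distrib_left, Iio_union_Ici, inter_univ]
  · rw [Set.disjoint_left]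
    rintro x ⟨_, hx1⟩ ⟨_, hx2⟩
    simp only [mem_Iio, mem_Ici] at hx1 hx2
    linarith

theorem T_prob (n : ℕ) {μ : Measure ℝ} (h : Good μ) : IsProbabilityMeasure (T n μ) := by
  induction n generalizing μ with
  | zero => simp only [T]; infer_instance
  | succ n ih =>
    have := h.1
    constructor
    simp only [T]
    rw [Measure.add_apply, Measure.smul_apply, Measure.smul_apply, smul_eq_mul, smul_eq_mul]
    have e : ∀ s : Set ℝ, μ s * T n (condOn μ s) univ = μ s := by
      intro s
      by_cases hs : μ s = 0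
      · rw [hs, zero_mul]
      · have := ih (good_cond h hs)
        rw [measure_univ, mul_one]
    rw [e, e, ← measure_union _ measurableSet_Ici, Iio_union_Ici, measure_univ]
    rw [Set.disjoint_left]
    intro x hx1 hx2
    simp only [mem_Iio, mem_Ici] at hx1 hx2
    linarith

theorem T_supp (n : ℕ) {μ : Measure ℝ} (h : Good μ) (m : ℝ) (hm : μ (Ioi m) = 0) :
    T n μ (Ioi m) = 0 := by
  induction n generalizing μ with
  | zero =>
    have := h.1
    simp only [T]
    rw [Measure.dirac_apply' _ measurableSet_Ioi]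
    have hle : mean μ ≤ m := by
      unfold mean
      have h1 : ∀ᵐ x ∂μ, x ≤ m := by
        rw [ae_iff]
        have : {x : ℝ | ¬ x ≤ m} = Ioi m := by ext x; simp
        rw [this]; exact hm
      calc ∫ x, x ∂μ ≤ ∫ _, m ∂μ := integral_mono_ae h.2 (integrable_const _) h1
        _ = m := by simp
    rw [indicator_of_notMem]
    simpa using hle
  | succ n ih =>
    simp only [T]
    rw [Measure.add_apply, Measure.smul_apply, Measure.smul_apply, smul_eq_mul, smul_eq_mul]
    have e : ∀ s : Set ℝ, μ s * T n (condOn μ s) (Ioi m) = 0 := by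
      intro s
      by_cases hs : μ s = 0
      · rw [hs, zero_mul]
      · rw [ih (good_cond h hs), mul_zero]
        unfold condOn
        rw [Measure.smul_apply, Measure.restrict_apply measurableSet_Ioi, smul_eq_mul]
        rw [measure_mono_null inter_subset_left hm, mul_zero]
    rw [e, e, add_zero]

/-- Lower recursion. -/
theorem W1_ge (n : ℕ) {μ : Measure ℝ} (h : Good μ) (h1 : μ (Iio (mean μ)) ≠ 0)
    (h2 : μ (Ici (mean μ)) ≠ 0) :
    μ (Ici (mean μ)) * W1 (T n (condOn μ (Ici (mean μ)))) (condOn μ (Ici (mean μ)))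
      ≤ W1 (T (n + 1) μ) μ := by
  have hp := h.1
  set m := mean μ with hm
  have g1 := good_cond h h1
  have g2 := good_cond h h2
  have p1 := g1.1
  have p2 := g2.1
  have q1 := T_prob n g1
  have q2 := T_prob n g2
  unfold W1
  rw [← lintegral_const_mul' _ _ (measure_ne_top _ _)]
  have hpoint : ∀ t : ℝ, μ (Ici m) * ENNReal.ofReal |((T n (condOn μ (Ici m))) (Iic t)).toReal
      - ((condOn μ (Ici m)) (Iic t)).toReal|
      ≤ ENNReal.ofReal |((T (n + 1) μ) (Iic t)).toReal - (μ (Iic t)).toReal| := by
    intro t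
    rcases lt_or_ge t m with ht | ht
    · -- both vanish on the right part
      have z1 : (condOn μ (Ici m)) (Iic t) = 0 := by
        unfold condOn
        rw [Measure.smul_apply, Measure.restrict_apply measurableSet_Iic, smul_eq_mul]
        have : Iic t ∩ Ici m = ∅ := by
          rw [Set.eq_empty_iff_forall_notMem]
          rintro x ⟨hx1, hx2⟩
          simp only [mem_Iic, mem_Ici] at hx1 hx2
          linarith
        rw [this, measure_empty, mul_zero]
      have z2 : (T n (condOn μ (Ici m))) (Iic t) = 0 := by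
        -- by symmetry: support in [m, ∞)
        have key : ∀ (n : ℕ) (ν : Measure ℝ), Good ν → ν (Iio m) = 0 → T n ν (Iio m) = 0 := by
          intro n
          induction n with
          | zero =>
            intro ν hν hz
            have := hν.1
            simp only [T]
            rw [Measure.dirac_apply' _ measurableSet_Iio]
            have hle : m ≤ mean ν := by
              unfold mean
              have h1 : ∀ᵐ x ∂ν, m ≤ x := by
                rw [ae_iff]
                have : {x : ℝ | ¬ m ≤ x} = Iio m := by ext x; simp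
                rw [this]; exact hz
              calc m = ∫ _, m ∂ν := by simp
                _ ≤ ∫ x, x ∂ν := integral_mono_ae (integrable_const _) hν.2 h1
            rw [indicator_of_notMem]
            simpa using hle
          | succ n ih =>
            intro ν hν hz
            simp only [T]
            rw [Measure.add_apply, Measure.smul_apply, Measure.smul_apply, smul_eq_mul, smul_eq_mul]
            have e : ∀ s : Set ℝ, ν s * T n (condOn ν s) (Iio m) = 0 := by
              intro s
              by_cases hs : ν s = 0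
              · rw [hs, zero_mul]
              · rw [ih _ (good_cond hν hs), mul_zero]
                unfold condOn
                rw [Measure.smul_apply, Measure.restrict_apply measurableSet_Iio, smul_eq_mul]
                rw [measure_mono_null inter_subset_left hz, mul_zero]
            rw [e, e, add_zero]
        have h3 : condOn μ (Ici m) (Iio m) = 0 := by
          unfold condOn
          rw [Measure.smul_apply, Measure.restrict_apply measurableSet_Iio, smul_eq_mul]
          have : Iio m ∩ Ici m = ∅ := by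
            rw [Set.eq_empty_iff_forall_notMem]
            rintro x ⟨hx1, hx2⟩
            simp only [mem_Iio, mem_Ici] at hx1 hx2
            linarith
          rw [this, measure_empty, mul_zero]
        apply measure_mono_null _ (key n _ g2 h3)
        intro x hx
        exact lt_of_le_of_lt hx ht
      rw [z1, z2]
      simp
    · -- the left part is full
      have f1 : (condOn μ (Iio m)) (Ioi t) = 0 := by
        unfold condOn
        rw [Measure.smul_apply, Measure.restrict_apply measurableSet_Ioi, smul_eq_mul]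
        have : Ioi t ∩ Iio m = ∅ := by
          rw [Set.eq_empty_iff_forall_notMem]
          rintro x ⟨hx1, hx2⟩
          simp only [mem_Ioi, mem_Iio] at hx1 hx2
          linarith
        rw [this, measure_empty, mul_zero]
      have f2 := T_supp n g1 t f1
      have c1 : (condOn μ (Iio m)) (Iic t) = 1 := by
        rw [← compl_Ioi, prob_compl_eq_one_sub measurableSet_Ioi, f1, tsub_zero]
      have c2 : (T n (condOn μ (Iio m))) (Iic t) = 1 := by
        rw [← compl_Ioi, prob_compl_eq_one_sub measurableSet_Ioi, f2, tsub_zero]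
      have e1 := split h m (measurableSet_Iic (a := t))
      have e2 : (T (n + 1) μ) (Iic t) = μ (Iio m) * (T n (condOn μ (Iio m))) (Iic t)
          + μ (Ici m) * (T n (condOn μ (Ici m))) (Iic t) := by
        simp only [T]
        rw [Measure.add_apply, Measure.smul_apply, Measure.smul_apply, smul_eq_mul, smul_eq_mul]
      rw [e1, e2, c1, c2, ENNReal.toReal_add (by finiteness) (by finiteness),
        ENNReal.toReal_add (by finiteness) (by finiteness), ENNReal.toReal_mul,
        ENNReal.toReal_mul, ENNReal.toReal_mul]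
      have : (μ (Iio m)).toReal * (1 : ℝ≥0∞).toReal
          + (μ (Ici m)).toReal * ((T n (condOn μ (Ici m))) (Iic t)).toReal
          - ((μ (Iio m)).toReal * (1 : ℝ≥0∞).toReal
            + (μ (Ici m)).toReal * ((condOn μ (Ici m)) (Iic t)).toReal)
          = (μ (Ici m)).toReal * (((T n (condOn μ (Ici m))) (Iic t)).toReal
            - ((condOn μ (Ici m)) (Iic t)).toReal) := by ring
      rw [this, abs_mul, abs_of_nonneg ENNReal.toReal_nonneg,
        ENNReal.ofReal_mul ENNReal.toReal_nonneg, ENNReal.ofReal_toReal (measure_ne_top _ _)]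
  exact lintegral_mono hpoint

theorem cdf_meas (ν : Measure ℝ) [IsFiniteMeasure ν] :
    Measurable (fun t : ℝ => (ν (Iic t)).toReal) := by
  apply Monotone.measurable
  intro a b hab
  exact ENNReal.toReal_mono (measure_ne_top _ _) (measure_mono (Iic_subset_Iic.2 hab))

theorem T_fin (n : ℕ) {μ : Measure ℝ} (h : Good μ) (s : Set ℝ) :
    μ s ≠ 0 → IsProbabilityMeasure (T n (condOn μ s)) := fun hs => T_prob n (good_cond h hs)

/-- Upper recursion. -/
theorem W1_le (n : ℕ) {μ : Measure ℝ} (h : Good μ) :
    W1 (T (n + 1) μ) μ ≤ μ (Iio (mean μ)) * W1 (T n (condOn μ (Iio (mean μ)))) (condOn μ (Iio (mean μ)))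
      + μ (Ici (mean μ)) * W1 (T n (condOn μ (Ici (mean μ)))) (condOn μ (Ici (mean μ))) := by
  have hp := h.1
  set m := mean μ with hm
  set G : Set ℝ → ℝ → ℝ≥0∞ := fun s t => μ s * ENNReal.ofReal
    |((T n (condOn μ s)) (Iic t)).toReal - ((condOn μ s) (Iic t)).toReal| with hG
  have hGm : ∀ s, Measurable (G s) := by
    intro s
    by_cases hs : μ s = 0
    · have : G s = fun _ => 0 := by
        funext t; simp [hG, hs]
      rw [this]; exact measurable_const
    · have h1 := T_fin n h s hs
      have h2 := (good_cond h hs).1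
      have := ((cdf_meas (T n (condOn μ s))).sub (cdf_meas (condOn μ s)))
      exact (ENNReal.measurable_ofReal.comp (measurable_norm.comp this)).const_mul _
  unfold W1
  rw [← lintegral_const_mul' _ _ (measure_ne_top _ _), ← lintegral_const_mul' _ _ (measure_ne_top _ _)]
  change _ ≤ (∫⁻ t, G (Iio m) t) + ∫⁻ t, G (Ici m) t
  rw [← lintegral_add_left (hGm _)]
  apply lintegral_mono
  intro t
  have hx : ∀ s : Set ℝ, μ s * T n (condOn μ s) (Iic t) ≠ ⊤ := by
    intro s
    by_cases hs : μ s = 0
    · rw [hs, zero_mul]; simp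
    · have h1 := T_fin n h s hs
      exact ENNReal.mul_ne_top (measure_ne_top _ _) (measure_ne_top _ _)
  have hy : ∀ s : Set ℝ, μ s * condOn μ s (Iic t) ≠ ⊤ := by
    intro s
    by_cases hs : μ s = 0
    · rw [hs, zero_mul]; simp
    · have h2 := (good_cond h hs).1
      exact ENNReal.mul_ne_top (measure_ne_top _ _) (measure_ne_top _ _)
  have e1 := split h m (measurableSet_Iic (a := t))
  have e2 : (T (n + 1) μ) (Iic t) = μ (Iio m) * (T n (condOn μ (Iio m))) (Iic t)
      + μ (Ici m) * (T n (condOn μ (Ici m))) (Iic t) := by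
    simp only [T]
    rw [Measure.add_apply, Measure.smul_apply, Measure.smul_apply, smul_eq_mul, smul_eq_mul]
  simp only
  rw [e2, e1, ENNReal.toReal_add (hx _) (hx _), ENNReal.toReal_add (hy _) (hy _),
    ENNReal.toReal_mul, ENNReal.toReal_mul, ENNReal.toReal_mul, ENNReal.toReal_mul]
  have eG : ∀ s, G s t = ENNReal.ofReal ((μ s).toReal *
      |((T n (condOn μ s)) (Iic t)).toReal - ((condOn μ s) (Iic t)).toReal|) := by
    intro s
    rw [ENNReal.ofReal_mul ENNReal.toReal_nonneg, ENNReal.ofReal_toReal (measure_ne_top _ _)]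
  rw [eG, eG, ← ENNReal.ofReal_add (by positivity) (by positivity)]
  apply ENNReal.ofReal_le_ofReal
  set a := (μ (Iio m)).toReal
  set b := (μ (Ici m)).toReal
  set x := ((T n (condOn μ (Iio m))) (Iic t)).toReal
  set y := ((T n (condOn μ (Ici m))) (Iic t)).toReal
  set u := ((condOn μ (Iio m)) (Iic t)).toReal
  set v := ((condOn μ (Ici m)) (Iic t)).toReal
  have ha : 0 ≤ a := ENNReal.toReal_nonneg
  have hb : 0 ≤ b := ENNReal.toReal_nonneg
  calc |a * x + b * y - (a * u + b * v)| = |a * (x - u) + b * (y - v)| := by congr 1; ring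
    _ ≤ |a * (x - u)| + |b * (y - v)| := abs_add_le _ _
    _ = a * |x - u| + b * |y - v| := by rw [abs_mul, abs_mul, abs_of_nonneg ha, abs_of_nonneg hb]

theorem W1_dirac {μ : Measure ℝ} (h : Good μ) (m : ℝ) : W1 (Measure.dirac m) μ < ⊤ := by
  have hp := h.1
  set S : Set (ℝ × ℝ) := {p | (p.1 ≤ p.2 ∧ p.2 < m) ∨ (m ≤ p.2 ∧ p.2 < p.1)} with hS
  have hSm : MeasurableSet S := by
    apply MeasurableSet.union
    · exact (measurableSet_le measurable_fst measurable_snd).inter
        (measurableSet_lt measurable_snd measurable_const)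
    · exact (measurableSet_le measurable_const measurable_snd).inter
        (measurableSet_lt measurable_snd measurable_fst)
  have h1 : ∀ t : ℝ, ENNReal.ofReal |((Measure.dirac m) (Iic t)).toReal - (μ (Iic t)).toReal|
      = ∫⁻ x, S.indicator (fun _ => (1 : ℝ≥0∞)) (x, t) ∂μ := by
    intro t
    have hi : ∫⁻ x, S.indicator (fun _ => (1 : ℝ≥0∞)) (x, t) ∂μ = μ {x | (x, t) ∈ S} := by
      have hm1 : MeasurableSet {x : ℝ | (x, t) ∈ S} := (measurable_prodMk_right (y := t)) hSm
      rw [← lintegral_indicator_one hm1]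
      apply lintegral_congr
      intro x
      by_cases hx : (x, t) ∈ S
      · rw [indicator_of_mem hx, indicator_of_mem (by exact hx)]; rfl
      · rw [indicator_of_notMem hx, indicator_of_notMem (by exact hx)]
    rw [hi, Measure.dirac_apply' _ measurableSet_Iic]
    rcases lt_or_ge t m with ht | ht
    · rw [indicator_of_notMem (by simpa using ht)]
      simp only [ENNReal.toReal_zero, zero_sub, abs_neg]
      rw [abs_of_nonneg ENNReal.toReal_nonneg, ENNReal.ofReal_toReal (measure_ne_top _ _)]
      congr 1
      ext x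
      simp only [hS, mem_Iic, mem_ofPred_eq]
      constructor
      · intro hx; left; exact ⟨hx, ht⟩
      · rintro (⟨hx, _⟩ | ⟨hx, _⟩)
        · exact hx
        · linarith
    · rw [indicator_of_mem (by simpa using ht)]
      simp only [Pi.one_apply, ENNReal.toReal_one]
      have h2 : 1 - (μ (Iic t)).toReal = (μ (Ioi t)).toReal := by
        rw [← compl_Iic, prob_compl_eq_one_sub measurableSet_Iic,
          ENNReal.toReal_sub_of_le prob_le_one (by simp)]
        simp
      rw [h2, abs_of_nonneg ENNReal.toReal_nonneg, ENNReal.ofReal_toReal (measure_ne_top _ _)]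
      congr 1
      ext x
      simp only [hS, mem_Ioi, mem_ofPred_eq]
      constructor
      · intro hx; right; exact ⟨ht, hx⟩
      · rintro (⟨_, hx⟩ | ⟨_, hx⟩)
        · linarith
        · exact hx
  unfold W1
  rw [lintegral_congr h1]
  have hfm : Measurable (fun p : ℝ × ℝ => S.indicator (fun _ => (1 : ℝ≥0∞)) (p.2, p.1)) :=
    (measurable_const.indicator hSm).comp measurable_swap
  rw [lintegral_lintegral_swap hfm.aemeasurable]
  have h3 : ∀ x : ℝ, ∫⁻ t, S.indicator (fun _ => (1 : ℝ≥0∞)) (x, t) ≤ ENNReal.ofReal |x - m| := by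
    intro x
    have hm1 : MeasurableSet {t : ℝ | (x, t) ∈ S} := measurable_prodMk_left hSm
    have e : ∫⁻ t, S.indicator (fun _ => (1 : ℝ≥0∞)) (x, t) = volume {t : ℝ | (x, t) ∈ S} := by
      rw [← lintegral_indicator_one hm1]
      apply lintegral_congr
      intro t
      by_cases hx : (x, t) ∈ S
      · rw [indicator_of_mem hx, indicator_of_mem (by exact hx)]; rfl
      · rw [indicator_of_notMem hx, indicator_of_notMem (by exact hx)]
    rw [e]
    rcases le_total x m with hxm | hxm
    · calc volume {t : ℝ | (x, t) ∈ S} ≤ volume (Icc x m) := by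
            apply measure_mono
            rintro t (⟨a, b⟩ | ⟨a, b⟩)
            · exact ⟨a, b.le⟩
            · simp only at a b; linarith
        _ = ENNReal.ofReal |x - m| := by
            rw [Real.volume_Icc, abs_of_nonpos (by linarith)]; congr 1; ring
    · calc volume {t : ℝ | (x, t) ∈ S} ≤ volume (Icc m x) := by
            apply measure_mono
            rintro t (⟨a, b⟩ | ⟨a, b⟩)
            · simp only at a b; linarith
            · exact ⟨a, b.le⟩
        _ = ENNReal.ofReal |x - m| := by
            rw [Real.volume_Icc, abs_of_nonneg (by linarith)]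
  refine lt_of_le_of_lt (lintegral_mono h3) ?_
  have hint : Integrable (fun x : ℝ => |x - m|) μ := (h.2.sub (integrable_const m)).abs
  exact hint.lintegral_lt_top

theorem W1_fin (n : ℕ) {μ : Measure ℝ} (h : Good μ) : W1 (T n μ) μ < ⊤ := by
  induction n generalizing μ with
  | zero => exact W1_dirac h _
  | succ n ih =>
    have hp := h.1
    refine lt_of_le_of_lt (W1_le n h) ?_
    have e : ∀ s : Set ℝ, μ s * W1 (T n (condOn μ s)) (condOn μ s) < ⊤ := by
      intro s
      by_cases hs : μ s = 0
      · rw [hs, zero_mul]; simp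
      · exact ENNReal.mul_lt_top (measure_lt_top _ _) (ih (good_cond h hs))
    exact ENNReal.add_lt_top.2 ⟨e _, e _⟩

/-! ### Scaling -/

/-- Dilation. -/
def dil (r x : ℝ) : ℝ := r * x

theorem dil_meas (r : ℝ) : Measurable (dil r) := by unfold dil; fun_prop

theorem dil_Iio {r : ℝ} (hr : 0 < r) (m : ℝ) : dil r ⁻¹' Iio (r * m) = Iio m := by
  ext x
  simp only [dil, mem_preimage, mem_Iio]
  exact mul_lt_mul_iff_right₀ hr

theorem dil_Ici {r : ℝ} (hr : 0 < r) (m : ℝ) : dil r ⁻¹' Ici (r * m) = Ici m := by
  ext x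
  simp only [dil, mem_preimage, mem_Ici]
  exact mul_le_mul_iff_right₀ hr

theorem mean_dil (r : ℝ) (μ : Measure ℝ) : mean (μ.map (dil r)) = r * mean μ := by
  unfold mean
  rw [integral_map (dil_meas r).aemeasurable (by fun_prop)]
  unfold dil
  rw [integral_const_mul]

theorem cond_dil (r : ℝ) (μ : Measure ℝ) {s : Set ℝ} (hs : MeasurableSet s) :
    condOn (μ.map (dil r)) s = (condOn μ (dil r ⁻¹' s)).map (dil r) := by
  unfold condOn
  rw [Measure.map_smul, Measure.restrict_map (dil_meas r) hs, Measure.map_apply (dil_meas r) hs]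

theorem T_dil {r : ℝ} (hr : 0 < r) (n : ℕ) (μ : Measure ℝ) :
    T n (μ.map (dil r)) = (T n μ).map (dil r) := by
  induction n generalizing μ with
  | zero =>
    simp only [T]
    rw [mean_dil, Measure.map_dirac' (dil_meas r)]
    rfl
  | succ n ih =>
    simp only [T]
    rw [mean_dil, cond_dil r μ measurableSet_Iio, cond_dil r μ measurableSet_Ici, dil_Iio hr,
      dil_Ici hr, ih, ih, Measure.map_apply (dil_meas r) measurableSet_Iio,
      Measure.map_apply (dil_meas r) measurableSet_Ici, dil_Iio hr, dil_Ici hr,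
      Measure.map_add _ _ (dil_meas r), Measure.map_smul, Measure.map_smul]

theorem W1_dil {r : ℝ} (hr : 0 < r) (μ ν : Measure ℝ) :
    W1 (μ.map (dil r)) (ν.map (dil r)) = ENNReal.ofReal r * W1 μ ν := by
  unfold W1
  have h1 : ∀ (μ : Measure ℝ) (t : ℝ), (μ.map (dil r)) (Iic t) = μ (Iic (r⁻¹ * t)) := by
    intro μ t
    rw [Measure.map_apply (dil_meas r) measurableSet_Iic]
    congr 1
    ext x
    simp only [dil, mem_preimage, mem_Iic]
    rw [inv_mul_eq_div, le_div_iff₀ hr, mul_comm]
  simp only [h1]
  have hr' : r⁻¹ ≠ 0 := inv_ne_zero hr.ne'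
  have h2 := (measurableEmbedding_mulLeft₀ hr').lintegral_map (μ := volume)
    (fun t => ENNReal.ofReal |(μ (Iic t)).toReal - (ν (Iic t)).toReal|)
  rw [Real.map_volume_mul_left hr', inv_inv, abs_of_pos hr, lintegral_smul_measure] at h2
  exact h2.symm

/-! ### The example -/

/-- Uniform measure on `[1, 21/20]`. -/
noncomputable def U : Measure ℝ := (20 : ℝ≥0∞) • volume.restrict (Icc 1 (21 / 20))

theorem U_prob : IsProbabilityMeasure U := by
  constructor
  unfold U
  rw [Measure.smul_apply, Measure.restrict_apply MeasurableSet.univ, univ_inter, Real.volume_Icc,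
    smul_eq_mul]
  have : (21 / 20 - 1 : ℝ) = 20⁻¹ := by norm_num
  rw [this, ENNReal.ofReal_inv_of_pos (by norm_num)]
  norm_num
  exact ENNReal.mul_inv_cancel (by norm_num) (by norm_num)

theorem U_supp : ∀ᵐ x ∂U, x ∈ Icc (1 : ℝ) (21 / 20) := by
  unfold U
  apply Measure.ae_smul_measure
  exact ae_restrict_mem measurableSet_Icc

/-- The coefficients. -/
noncomputable def cf (k : ℕ) : ℝ≥0∞ := ENNReal.ofReal (5 / 8 * (3 / 8) ^ k)

theorem cf_succ (k : ℕ) : cf (k + 1) = ENNReal.ofReal (3 / 8) * cf k := by
  unfold cf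
  rw [← ENNReal.ofReal_mul (by norm_num)]
  congr 1
  rw [pow_succ]; ring

theorem cf_sum : ∑' k, cf k = 1 := by
  unfold cf
  rw [← ENNReal.ofReal_tsum_of_nonneg (fun k => by positivity)]
  · rw [tsum_mul_left, tsum_geometric_of_lt_one (by norm_num) (by norm_num)]
    norm_num
  · exact (summable_geometric_of_lt_one (by norm_num) (by norm_num)).mul_left _

/-- The example: uniform clusters near `(3/2)^k` of mass `(5/8)(3/8)^k`. -/
noncomputable def ex : Measure ℝ := Measure.sum (fun k => cf k • U.map (dil ((3 / 2) ^ k)))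

theorem ex_apply {A : Set ℝ} (hA : MeasurableSet A) :
    ex A = ∑' k, cf k * U (dil ((3 / 2) ^ k) ⁻¹' A) := by
  unfold ex
  rw [Measure.sum_apply _ hA]
  congr 1
  funext k
  rw [Measure.smul_apply, Measure.map_apply (dil_meas _) hA, smul_eq_mul]

instance ex_prob : IsProbabilityMeasure ex := by
  have := U_prob
  constructor
  rw [ex_apply MeasurableSet.univ]
  simp only [preimage_univ, measure_univ, mul_one]
  exact cf_sum

theorem ex_self : ex = ENNReal.ofReal (5 / 8) • U + ENNReal.ofReal (3 / 8) • ex.map (dil (3 / 2)) := by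
  ext A hA
  rw [Measure.add_apply, Measure.smul_apply, Measure.smul_apply, Measure.map_apply (dil_meas _) hA,
    ex_apply hA, ex_apply ((dil_meas _) hA), smul_eq_mul, smul_eq_mul, ← ENNReal.tsum_mul_left,
    tsum_eq_zero_add' ENNReal.summable]
  congr 1
  · have : dil ((3 / 2) ^ 0) = id := by funext x; simp [dil]
    rw [this, preimage_id]
    unfold cf
    norm_num
  · congr 1
    funext k
    rw [cf_succ, mul_assoc]
    congr 3
    ext x
    simp only [dil, mem_preimage]
    rw [pow_succ, ← mul_assoc, mul_comm (3 / 2 : ℝ) ((3 / 2) ^ k)]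

theorem ex_low : ex (Iio 1) = 0 := by
  rw [ex_apply measurableSet_Iio, ENNReal.tsum_eq_zero]
  intro k
  have h : U (dil ((3 / 2) ^ k) ⁻¹' Iio 1) = 0 := by
    have h1 := U_supp
    rw [ae_iff] at h1
    apply measure_mono_null _ h1
    intro x hx
    simp only [dil, mem_preimage, mem_Iio] at hx
    simp only [mem_Icc, not_and, not_le, mem_ofPred_eq]
    intro hx1
    have h2 : (1 : ℝ) ≤ (3 / 2) ^ k := one_le_pow₀ (by norm_num)
    nlinarith
  rw [h, mul_zero]

theorem ex_sq : Integrable (fun x : ℝ => x ^ 2) ex := by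
  have hU := U_prob
  refine ⟨by fun_prop, ?_⟩
  rw [hasFiniteIntegral_iff_enorm]
  unfold ex
  rw [lintegral_sum_measure]
  have h1 : ∀ k, ∫⁻ x, ‖x ^ 2‖ₑ ∂(cf k • U.map (dil ((3 / 2) ^ k)))
      ≤ ENNReal.ofReal (2 * (27 / 32) ^ k) := by
    intro k
    rw [lintegral_smul_measure, lintegral_map (by fun_prop) (dil_meas _), smul_eq_mul]
    have h2 : ∫⁻ a, ‖dil ((3 / 2) ^ k) a ^ 2‖ₑ ∂U ≤ ENNReal.ofReal (2 * (9 / 4) ^ k) := by
      calc ∫⁻ a, ‖dil ((3 / 2) ^ k) a ^ 2‖ₑ ∂U ≤ ∫⁻ _, ENNReal.ofReal (2 * (9 / 4) ^ k) ∂U := by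
            apply lintegral_mono_ae
            filter_upwards [U_supp] with x hx
            rw [← ofReal_norm, Real.norm_eq_abs]
            apply ENNReal.ofReal_le_ofReal
            rw [abs_of_nonneg (by positivity)]
            unfold dil
            have e : ((3 / 2 : ℝ) ^ k * x) ^ 2 = (9 / 4) ^ k * x ^ 2 := by
              rw [mul_pow, ← pow_mul, mul_comm k 2, pow_mul]; norm_num
            rw [e]
            have hx2 : x ^ 2 ≤ 2 := by nlinarith [hx.1, hx.2]
            have : (0 : ℝ) < (9 / 4) ^ k := by positivity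
            nlinarith
        _ = _ := by simp
    calc cf k * ∫⁻ a, ‖dil ((3 / 2) ^ k) a ^ 2‖ₑ ∂U ≤ cf k * ENNReal.ofReal (2 * (9 / 4) ^ k) :=
          mul_le_mul_right h2 _
      _ ≤ ENNReal.ofReal (2 * (27 / 32) ^ k) := by
          unfold cf
          rw [← ENNReal.ofReal_mul (by positivity)]
          apply ENNReal.ofReal_le_ofReal
          have e : (27 / 32 : ℝ) ^ k = (3 / 8) ^ k * (9 / 4) ^ k := by rw [← mul_pow]; norm_num
          rw [e]
          have : (0 : ℝ) < (3 / 8) ^ k * (9 / 4) ^ k := by positivity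
          nlinarith
  refine lt_of_le_of_lt (ENNReal.tsum_le_tsum h1) ?_
  rw [← ENNReal.ofReal_tsum_of_nonneg (fun k => by positivity)
    ((summable_geometric_of_lt_one (by norm_num) (by norm_num)).mul_left _)]
  exact ENNReal.ofReal_lt_top

theorem ex_good : Good ex := by
  refine ⟨inferInstance, ?_⟩
  have h := ex_sq
  have h2 : MemLp (fun x : ℝ => x) 2 ex := by
    rw [memLp_two_iff_integrable_sq (by fun_prop)]
    exact h
  exact h2.integrable (by norm_num)

theorem U_good : Good U := by
  have := U_prob
  refine ⟨U_prob, ?_⟩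
  refine Integrable.of_bound (by fun_prop) 2 ?_
  filter_upwards [U_supp] with x hx
  rw [Real.norm_eq_abs, abs_le]
  constructor <;> linarith [hx.1, hx.2]

theorem mean_eq : mean ex = 10 / 7 * mean U := by
  have h := ex_good.2
  have hU := U_good.2
  have e : mean ex = 5 / 8 * mean U + 3 / 8 * (3 / 2 * mean ex) := by
    have hi : Integrable (fun x : ℝ => x) (ex.map (dil (3 / 2))) := by
      rw [integrable_map_measure (by fun_prop) (dil_meas _).aemeasurable]
      exact h.const_mul _
    have h1 := congrArg (fun m : Measure ℝ => ∫ x, x ∂m) ex_self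
    rw [integral_add_measure (hU.smul_measure (by simp)) (hi.smul_measure (by simp)),
      integral_smul_measure, integral_smul_measure, ENNReal.toReal_ofReal (by norm_num),
      ENNReal.toReal_ofReal (by norm_num), smul_eq_mul, smul_eq_mul] at h1
    have h2 : ∫ x, x ∂(ex.map (dil (3 / 2))) = 3 / 2 * mean ex := mean_dil _ _
    rw [h2] at h1
    exact h1
  linarith

theorem mean_U : 1 ≤ mean U ∧ mean U ≤ 21 / 20 := by
  have hU := U_good
  have := hU.1
  unfold mean
  constructor
  · calc (1 : ℝ) = ∫ _, (1 : ℝ) ∂U := by simp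
      _ ≤ ∫ x, x ∂U := integral_mono_ae (integrable_const _) hU.2 (by
        filter_upwards [U_supp] with x hx using hx.1)
  · calc ∫ x, x ∂U ≤ ∫ _, (21 / 20 : ℝ) ∂U := integral_mono_ae hU.2 (integrable_const _) (by
        filter_upwards [U_supp] with x hx using hx.2)
      _ = 21 / 20 := by simp

theorem mean_bd : 7 / 5 < mean ex ∧ mean ex ≤ 3 / 2 := by
  rw [mean_eq]
  have := mean_U
  constructor <;> linarith [this.1, this.2]

theorem map_low : (ex.map (dil (3 / 2))) (Iio (mean ex)) = 0 := by
  rw [Measure.map_apply (dil_meas _) measurableSet_Iio]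
  apply measure_mono_null _ ex_low
  intro x hx
  simp only [dil, mem_preimage, mem_Iio] at hx ⊢
  have := mean_bd.2
  linarith

theorem U_high : U (Ici (mean ex)) = 0 := by
  have h1 := U_supp
  rw [ae_iff] at h1
  apply measure_mono_null _ h1
  intro x hx
  simp only [mem_Ici] at hx
  simp only [mem_Icc, not_and, not_le, mem_ofPred_eq]
  intro _
  have := mean_bd.1
  linarith

theorem ex_restrict : ex.restrict (Ici (mean ex)) = ENNReal.ofReal (3 / 8) • ex.map (dil (3 / 2)) := by
  ext A hA
  rw [Measure.restrict_apply hA]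
  have h0 := congrArg (fun m : Measure ℝ => m (A ∩ Ici (mean ex))) ex_self
  simp only [Measure.add_apply, Measure.smul_apply] at h0
  rw [h0, Measure.smul_apply]
  have h1 : U (A ∩ Ici (mean ex)) = 0 := measure_mono_null inter_subset_right U_high
  have h2 : (ex.map (dil (3 / 2))) (A ∩ Ici (mean ex)) = (ex.map (dil (3 / 2))) A := by
    apply measure_inter_conull
    rw [compl_Ici]
    exact map_low
  rw [h1, h2, smul_zero, zero_add]

theorem ex_Ici : ex (Ici (mean ex)) = ENNReal.ofReal (3 / 8) := by
  have h := ex_restrict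
  have h1 := congrArg (fun m : Measure ℝ => m univ) h
  simp only [Measure.restrict_apply_univ] at h1
  rw [h1, Measure.smul_apply]
  have : IsProbabilityMeasure (ex.map (dil (3 / 2))) :=
    Measure.isProbabilityMeasure_map (dil_meas _).aemeasurable
  rw [measure_univ, smul_eq_mul, mul_one]

theorem ex_cond : condOn ex (Ici (mean ex)) = ex.map (dil (3 / 2)) := by
  unfold condOn
  rw [ex_restrict, ex_Ici, smul_smul, ENNReal.inv_mul_cancel (by simp) (by simp), one_smul]

theorem ex_Iio : ex (Iio (mean ex)) ≠ 0 := by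
  have h : ex (Iio (mean ex)) = 1 - ENNReal.ofReal (3 / 8) := by
    rw [← ex_Ici, ← compl_Ici, prob_compl_eq_one_sub measurableSet_Ici]
  rw [h, ← ENNReal.ofReal_one, ← ENNReal.ofReal_sub _ (by norm_num)]
  simp
  norm_num

theorem step (n : ℕ) : ENNReal.ofReal (9 / 16) * W1 (T n ex) ex ≤ W1 (T (n + 1) ex) ex := by
  have h := W1_ge n ex_good ex_Iio (by rw [ex_Ici]; simp)
  rw [ex_cond, T_dil (by norm_num), W1_dil (by norm_num), ex_Ici, ← mul_assoc,
    ← ENNReal.ofReal_mul (by norm_num)] at h
  norm_num at h ⊢
  exact h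

theorem base : ENNReal.ofReal (1 / 5) ≤ W1 (T 0 ex) ex := by
  unfold W1
  simp only [T]
  have hU := U_prob
  calc ENNReal.ofReal (1 / 5) ≤ ENNReal.ofReal (5 / 8) * volume (Ico (21 / 20 : ℝ) (7 / 5)) := by
        rw [Real.volume_Ico, ← ENNReal.ofReal_mul (by norm_num)]
        apply ENNReal.ofReal_le_ofReal
        norm_num
    _ = ∫⁻ t in Ico (21 / 20 : ℝ) (7 / 5), ENNReal.ofReal (5 / 8) := by simp
    _ ≤ ∫⁻ t in Ico (21 / 20 : ℝ) (7 / 5), ENNReal.ofReal
          |((Measure.dirac (mean ex)) (Iic t)).toReal - (ex (Iic t)).toReal| := by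
        apply setLIntegral_mono' measurableSet_Ico
        intro t ht
        have h1 : (Measure.dirac (mean ex)) (Iic t) = 0 := by
          rw [Measure.dirac_apply' _ measurableSet_Iic, indicator_of_notMem]
          simp only [mem_Iic, not_le]
          exact ht.2.trans mean_bd.1
        have h2 : ENNReal.ofReal (5 / 8) ≤ ex (Iic t) := by
          rw [ex_self, Measure.add_apply, Measure.smul_apply]
          have h3 : U (Iic t) = 1 := by
            have h5 := U_supp
            rw [ae_iff] at h5
            have h4 : U (Ioi t) = 0 := by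
              apply measure_mono_null _ h5
              intro x hx
              simp only [mem_Ioi] at hx
              simp only [mem_Icc, not_and, not_le, mem_ofPred_eq]
              intro _
              have := ht.1
              linarith
            rw [← compl_Ioi, prob_compl_eq_one_sub measurableSet_Ioi, h4, tsub_zero]
          rw [h3, smul_eq_mul, mul_one]
          exact le_self_add
        rw [h1]
        simp only [ENNReal.toReal_zero, zero_sub, abs_neg]
        rw [abs_of_nonneg ENNReal.toReal_nonneg, ENNReal.ofReal_toReal (measure_ne_top _ _)]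
        exact h2
    _ ≤ _ := setLIntegral_le_lintegral _ _

theorem lower (n : ℕ) : ENNReal.ofReal (1 / 5 * (9 / 16) ^ n) ≤ W1 (T n ex) ex := by
  induction n with
  | zero => simpa using base
  | succ n ih =>
    refine le_trans ?_ (step n)
    calc ENNReal.ofReal (1 / 5 * (9 / 16) ^ (n + 1))
        = ENNReal.ofReal (9 / 16) * ENNReal.ofReal (1 / 5 * (9 / 16) ^ n) := by
          rw [← ENNReal.ofReal_mul (by norm_num)]
          congr 1
          rw [pow_succ]; ring
      _ ≤ _ := mul_le_mul_right ih _

theorem ex_ac : ex ≪ volume := by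
  refine Measure.AbsolutelyContinuous.mk fun A hA hz => ?_
  rw [ex_apply hA, ENNReal.tsum_eq_zero]
  intro k
  have h : U (dil ((3 / 2) ^ k) ⁻¹' A) = 0 := by
    unfold U
    rw [Measure.smul_apply, Measure.restrict_apply ((dil_meas _) hA)]
    have h1 : volume (dil ((3 / 2) ^ k) ⁻¹' A) = 0 := by
      have : dil ((3 / 2) ^ k) ⁻¹' A = ((fun x : ℝ => (3 / 2) ^ k * x) ⁻¹' A) := rfl
      rw [this, Real.volume_preimage_mul_left (by positivity), hz, mul_zero]
    rw [measure_mono_null inter_subset_left h1, smul_zero]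
  rw [h, mul_zero]

/-- There is an absolutely continuous probability measure with finite second moment for which
`W1(μ^(n), μ) ≥ (1/5) (9/16)^n` for all `n`; in particular the exponential rate of the mean-split
quantization is not `-log 2`. -/
theorem result : ∃ μ : Measure ℝ, IsProbabilityMeasure μ ∧ μ ≪ volume ∧
    Integrable (fun x : ℝ => x ^ 2) μ ∧
    (∀ n, W1 (T n μ) μ < ⊤) ∧
    (∀ n, 1 / 5 * (9 / 16 : ℝ) ^ n ≤ (W1 (T n μ) μ).toReal) ∧
    Filter.limsup (fun n : ℕ => ((1 / (n : ℝ) * Real.log (W1 (T n μ) μ).toReal : ℝ) : EReal)) atTop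
      ≠ ((-Real.log 2 : ℝ) : EReal) := by
  have hlow : ∀ n, 1 / 5 * (9 / 16 : ℝ) ^ n ≤ (W1 (T n ex) ex).toReal := by
    intro n
    rw [← ENNReal.ofReal_le_iff_le_toReal (W1_fin n ex_good).ne]
    exact lower n
  refine ⟨ex, inferInstance, ex_ac, ex_sq, fun n => W1_fin n ex_good, hlow, ?_⟩
  apply ne_of_gt
  have h1 : Tendsto (fun n : ℕ => ((1 / (n : ℝ) * Real.log (1 / 5) + Real.log (9 / 16) : ℝ) : EReal))
      atTop (𝓝 ((Real.log (9 / 16) : ℝ) : EReal)) := by
    apply (continuous_coe_real_ereal.tendsto _).comp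
    have h2 : Tendsto (fun n : ℕ => 1 / (n : ℝ)) atTop (𝓝 0) := tendsto_one_div_atTop_nhds_zero_nat
    have h3 := (h2.mul_const (Real.log (1 / 5))).add_const (Real.log (9 / 16))
    simpa using h3
  have h4 : ((Real.log (9 / 16) : ℝ) : EReal) ≤ Filter.limsup (fun n : ℕ =>
      ((1 / (n : ℝ) * Real.log (W1 (T n ex) ex).toReal : ℝ) : EReal)) atTop := by
    rw [← h1.limsup_eq]
    refine Filter.limsup_le_limsup ?_ (by isBoundedDefault) (by isBoundedDefault)
    · filter_upwards [eventually_ge_atTop 1] with n hn
      rw [EReal.coe_le_coe_iff]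
      have hn0 : (0 : ℝ) < n := by exact_mod_cast hn
      have h5 : Real.log (1 / 5 * (9 / 16 : ℝ) ^ n) ≤ Real.log (W1 (T n ex) ex).toReal :=
        Real.log_le_log (by positivity) (hlow n)
      rw [Real.log_mul (by norm_num) (by positivity), Real.log_pow] at h5
      have h6 := mul_le_mul_of_nonneg_left h5 (show (0 : ℝ) ≤ 1 / n by positivity)
      calc 1 / (n : ℝ) * Real.log (1 / 5) + Real.log (9 / 16)
          = 1 / (n : ℝ) * (Real.log (1 / 5) + n * Real.log (9 / 16)) := by
            field_simp
        _ ≤ _ := h6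
  refine lt_of_lt_of_le ?_ h4
  rw [EReal.coe_lt_coe_iff, ← Real.log_inv]
  exact Real.log_lt_log (by norm_num) (by norm_num)

end Pool.Agent.Results.MP_a33f4b_pr.SlowRate
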